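import Pool.Agent.H626.SE.LocalAvg2

/-!
# MP_943ac9_co: connected graphs with a large clique
-/

set_option autoImplicit false

namespace Pool.Agent.Results.MP_943ac9_co.LargeClique

open Pool.Agent.H626.SE

theorem herm {V : Type*} [Fintype V] [DecidableEq V] (G : SimpleGraph V) [DecidableRel G.Adj] :
    (G.adjMatrix ℝ).IsHermitian := by
  rw [Matrix.IsHermitian, Matrix.conjTranspose_eq_transpose_of_trivial]
  exact G.isSymm_adjMatrix

open Classical in
/-- The eigenvalues of the adjacency matrix of a finite graph, listed with multiplicity. -/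
noncomputable def eig {V : Type*} [Fintype V] (G : SimpleGraph V) : V → ℝ :=
  (herm G).eigenvalues

/-- The positive square energy `s⁺`: the sum of the squares of the positive eigenvalues. -/
noncomputable def sPlus {V : Type*} [Fintype V] (G : SimpleGraph V) : ℝ :=
  ∑ i, if 0 < eig G i then eig G i ^ 2 else 0

/-- Let `G` be a connected graph with `n` vertices which contains a clique `K` of `r ≥ 3` vertices,
where `n ≤ r + 4 r (r - 1 - √r)²`.  Then `s⁺(G) ≥ n`. -/
theorem result {V : Type*} [Fintype V] (G : SimpleGraph V) (hG : G.Connected) (n : ℕ)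
    (hn : Fintype.card V = n) (K : Finset V) (hK : G.IsClique K) (r : ℕ) (hr : K.card = r)
    (hr3 : 3 ≤ r) (h : (n : ℝ) ≤ r + 4 * r * ((r : ℝ) - 1 - √(r : ℝ)) ^ 2) :
    (n : ℝ) ≤ sPlus G := by
  classical
  subst hn hr
  have h1 : sPlus G = ∑ i, (max ((herm G).eigenvalues i) 0) ^ 2 := sq_plus G (herm G)
  rw [h1]
  have hr3' : (3 : ℝ) ≤ K.card := by exact_mod_cast hr3
  refine local_avg2 G (herm G) hG K (by omega) ?_
  have h2 : (∑ i ∈ K, ∑ j ∈ K, if G.Adj i j then (1 : ℝ) else 0)
      = (K.card : ℝ) * ((K.card : ℝ) - 1) := by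
    have h3 : ∀ i ∈ K, (∑ j ∈ K, if G.Adj i j then (1 : ℝ) else 0) = (K.card : ℝ) - 1 := by
      intro i hi
      rw [← Finset.sum_erase_add K _ hi, if_neg (G.loopless.irrefl i), add_zero,
        Finset.sum_congr rfl (fun j hj => if_pos (hK hi (Finset.mem_erase.mp hj).2
          (Finset.mem_erase.mp hj).1.symm)), Finset.sum_const, nsmul_eq_mul, mul_one,
        Finset.card_erase_of_mem hi, Nat.cast_sub (by omega)]
      norm_num
    rw [Finset.sum_congr rfl h3, Finset.sum_const, nsmul_eq_mul]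
  rw [h2]
  set a : ℝ := (K.card : ℝ) with ha
  have hs2 : √a ^ 2 = a := Real.sq_sqrt (by linarith)
  have hs0 : 0 ≤ √a := Real.sqrt_nonneg _
  have hs1 : 1.7 ≤ √a := by
    apply Real.le_sqrt_of_sq_le
    norm_num
    linarith
  have hnn : 0 ≤ a - 1 - √a := by nlinarith
  have h4 : √((Fintype.card V : ℝ) - a) ≤ 2 * √a * (a - 1 - √a) := by
    rw [Real.sqrt_le_left (mul_nonneg (by positivity) hnn), mul_pow, mul_pow, hs2]
    linarith
  have h5 : √a * √((Fintype.card V : ℝ) - a) ≤ 2 * a * (a - 1 - √a) := by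
    calc √a * √((Fintype.card V : ℝ) - a) ≤ √a * (2 * √a * (a - 1 - √a)) :=
          mul_le_mul_of_nonneg_left h4 hs0
      _ = 2 * √a ^ 2 * (a - 1 - √a) := by ring
      _ = 2 * a * (a - 1 - √a) := by rw [hs2]
  nlinarith

end Pool.Agent.Results.MP_943ac9_co.LargeClique
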